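import Pool.Agent.Helper49_LIR.FFB
import Pool.Agent.Helper54_LIR.FTB

/-!
# Squad LIR, row KHL: the linear part on the low momenta (noncommutative Khintchine inequality)
-/

set_option autoImplicit false

open MeasureTheory ProbabilityTheory

open scoped BigOperators NNReal

noncomputable section

namespace Pool.Agent.LE.IR.H49

open Pool.Agent.Anderson (nsq)
open Pool.Agent.BED
open Pool.Agent.LE.IR

variable {d M : ℕ} [NeZero M]

/-- the symbol of `tpo` on characters -/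
def ts (w c : ℝ) (p q : Tor d M) : ℂ :=
  (w : ℂ) * ∑ i : Fin d, (1 + ec (p - q) (ev i)) *
    ((starRingEnd ℂ) (ec p (ev i) - 1) * (ec q (ev i) - 1)) + (c : ℂ)

theorem ec_sub_left (p q y : Tor d M) : ec (p - q) y = ec p y * (starRingEnd ℂ) (ec q y) := by
  rw [sub_eq_add_neg, H54.ec_add_left, H54.ec_neg_left]

theorem ec_mul_conj (p y : Tor d M) : ec p y * (starRingEnd ℂ) (ec p y) = 1 := by
  rw [Complex.mul_conj, Complex.normSq_eq_norm_sq, H54.ec_norm]
  simp

theorem kf_ec (w c : ℝ) (p q x : Tor d M) :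
    kf w c (fun y => ec p y) (fun y => ec q y) x = (starRingEnd ℂ) (ec (p - q) x) * ts w c p q := by
  unfold kf ts
  have h1 : ∀ i : Fin d, ((starRingEnd ℂ) (ec p (x + ev i) - ec p x) * (ec q (x + ev i) - ec q x) +
      (starRingEnd ℂ) (ec p (x - ev i + ev i) - ec p (x - ev i)) *
        (ec q (x - ev i + ev i) - ec q (x - ev i))) =
      (starRingEnd ℂ) (ec (p - q) x) * ((1 + ec (p - q) (ev i)) *
        ((starRingEnd ℂ) (ec p (ev i) - 1) * (ec q (ev i) - 1))) := by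
    intro i
    rw [sub_add_cancel, ec_sub_left, ec_sub_left, H54.ec_add, H54.ec_add, H54.ec_sub, H54.ec_sub]
    simp only [map_sub, map_mul, Complex.conj_conj, map_one]
    have h1 := ec_mul_conj p (ev i)
    have h2 := ec_mul_conj q (ev i)
    set a := ec p (ev i)
    set a' := (starRingEnd ℂ) a
    set b := ec q (ev i)
    set b' := (starRingEnd ℂ) b
    set u := (starRingEnd ℂ) (ec p x)
    set v := ec q x
    linear_combination (u * v * b' * (1 - b)) * h1 + (u * v * (a - 1)) * h2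
  rw [Finset.sum_congr rfl fun i _ => h1 i, ← Finset.mul_sum, ec_sub_left]
  simp only [map_mul, Complex.conj_conj]
  ring

theorem tpo_ec (θ : Tor d M → ℝ) (w c : ℝ) (p q : Tor d M) :
    ∑ x, (starRingEnd ℂ) (ec p x) * tpo θ w c (fun y => ec q y) x =
      ft (fun x => (θ x : ℂ)) (p - q) * ts w c p q := by
  rw [tpo_kf (g := fun y => ec p y)]
  unfold ft
  rw [Finset.sum_mul]
  apply Finset.sum_congr rfl
  intro x _
  rw [kf_ec]
  ring

theorem tpo_sum (θ : Tor d M → ℝ) (w c : ℝ) {ι : Type} (s : Finset ι) (a : ι → ℂ)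
    (F : ι → Tor d M → ℂ) (x : Tor d M) :
    tpo θ w c (fun y => ∑ q ∈ s, a q * F q y) x = ∑ q ∈ s, a q * tpo θ w c (F q) x := by
  have h1 : ∀ q, a q * tpo θ w c (F q) x = (w : ℂ) * ∑ i : Fin d, a q *
      (((θ x + θ (x + ev i) : ℝ) : ℂ) * (F q x - F q (x + ev i)) +
      ((θ x + θ (x - ev i) : ℝ) : ℂ) * (F q x - F q (x - ev i))) +
      ((c * θ x : ℝ) : ℂ) * (a q * F q x) := by
    intro q
    unfold tpo
    rw [← Finset.mul_sum]
    ring
  rw [Finset.sum_congr rfl fun q _ => h1 q, Finset.sum_add_distrib, ← Finset.mul_sum,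
    ← Finset.mul_sum, Finset.sum_comm]
  unfold tpo
  congr 2
  apply Finset.sum_congr rfl
  intro i _
  rw [← Finset.sum_sub_distrib, ← Finset.sum_sub_distrib, Finset.mul_sum, Finset.mul_sum,
    ← Finset.sum_add_distrib]
  apply Finset.sum_congr rfl
  intro q _
  ring

theorem form_ft (θ : Tor d M → ℝ) (w c : ℝ) (g f : Tor d M → ℂ) :
    ∑ x, (starRingEnd ℂ) (g x) * tpo θ w c f x =
      (∑ p, ∑ q, (starRingEnd ℂ) (ft g p) * (ft f q * (ft (fun x => (θ x : ℂ)) (p - q) * ts w c p q))) /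
        ((M : ℂ) ^ d * (M : ℂ) ^ d) := by
  have hM : (M : ℂ) ^ d ≠ 0 := H54.Mne
  have hf : f = fun y => ∑ q, (ft f q / (M : ℂ) ^ d) * ec q y := by
    ext y
    rw [H54.inversion f y, Finset.sum_div]
    apply Finset.sum_congr rfl
    intro q _
    ring
  have hg : ∀ x, (starRingEnd ℂ) (g x) = ∑ p, ((starRingEnd ℂ) (ft g p) / (M : ℂ) ^ d) * (starRingEnd ℂ) (ec p x) := by
    intro x
    rw [H54.inversion g x, map_div₀, map_sum, Finset.sum_div]
    apply Finset.sum_congr rfl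
    intro q _
    simp only [map_mul, map_pow, map_natCast]
    ring
  have h1 : ∀ x, (starRingEnd ℂ) (g x) * tpo θ w c f x = ∑ p, ∑ q, ((starRingEnd ℂ) (ft g p) / (M : ℂ) ^ d) *
      ((ft f q / (M : ℂ) ^ d) * ((starRingEnd ℂ) (ec p x) * tpo θ w c (fun y => ec q y) x)) := by
    intro x
    conv_lhs => rw [hf]
    rw [tpo_sum θ w c Finset.univ (fun q => ft f q / (M : ℂ) ^ d) (fun q y => ec q y), hg x,
      Finset.sum_mul]
    apply Finset.sum_congr rfl
    intro p _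
    rw [Finset.mul_sum]
    apply Finset.sum_congr rfl
    intro q _
    ring
  rw [Finset.sum_congr rfl fun x _ => h1 x, Finset.sum_comm, Finset.sum_div]
  apply Finset.sum_congr rfl
  intro p _
  rw [Finset.sum_comm, Finset.sum_div]
  apply Finset.sum_congr rfl
  intro q _
  rw [← Finset.mul_sum, ← Finset.mul_sum, tpo_ec]
  field_simp

/-! ### size of the symbol -/

theorem ec_sub_one (p : Tor d M) (i : Fin d) :
    ‖ec p (ev i) - 1‖ ^ 2 = 2 * (1 - Real.cos (2 * Real.pi * ((p i).valMinAbs : ℝ) / M)) := by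
  rw [← Complex.normSq_eq_norm_sq, Complex.normSq_sub]
  have h1 : Complex.normSq (ec p (ev i)) = 1 := by
    rw [Complex.normSq_eq_norm_sq, H54.ec_norm]; norm_num
  rw [h1]
  simp only [map_one, mul_one]
  rw [H54.ec_ev, H54.std_re]
  ring

theorem ec_sub_one_low {J : ℕ} {lam : ℝ} (hJ : (J : ℝ) ^ 2 ≤ lam * (M : ℝ) ^ 2) {p : Tor d M}
    (hp : p ∈ low d M J) (i : Fin d) : ‖ec p (ev i) - 1‖ ^ 2 ≤ 4 * Real.pi ^ 2 * lam := by
  have hM : (0 : ℝ) < M := by exact_mod_cast Nat.pos_of_ne_zero (NeZero.ne M)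
  unfold low at hp
  simp only [Finset.mem_filter, Finset.mem_univ, true_and] at hp
  rw [ec_sub_one]
  refine (cos_up _).trans ?_
  have h1 : (((p i).valMinAbs : ℝ)) ^ 2 ≤ (J : ℝ) ^ 2 := by
    rw [sq_le_sq]
    have := hp i
    rw [Nat.abs_cast]
    rw [← Int.cast_abs, Int.abs_eq_natAbs]
    exact_mod_cast this
  have h2 : (2 * Real.pi * ((p i).valMinAbs : ℝ) / M) ^ 2 =
      4 * Real.pi ^ 2 * (((p i).valMinAbs : ℝ) ^ 2 / (M : ℝ) ^ 2) := by
    field_simp
    ring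
  rw [h2]
  apply mul_le_mul_of_nonneg_left _ (by positivity)
  rw [div_le_iff₀ (by positivity)]
  exact h1.trans hJ

theorem ts_low {J : ℕ} {lam w c : ℝ} (hlam : 0 ≤ lam) (hw : 0 ≤ w) (hw2 : w ≤ 2)
    (hc : |c| ≤ 5 * lam)
    (hJ : (J : ℝ) ^ 2 ≤ lam * (M : ℝ) ^ 2) {p q : Tor d M}
    (hp : p ∈ low d M J) (hq : q ∈ low d M J) :
    ‖ts w c p q‖ ≤ (16 * Real.pi ^ 2 * d + 5) * lam := by
  have h1 : ∀ i : Fin d, ‖(1 + ec (p - q) (ev i)) *
      ((starRingEnd ℂ) (ec p (ev i) - 1) * (ec q (ev i) - 1))‖ ≤ 8 * Real.pi ^ 2 * lam := by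
    intro i
    rw [norm_mul, norm_mul, RCLike.norm_conj]
    have a1 : ‖1 + ec (p - q) (ev i)‖ ≤ 2 := by
      refine (norm_add_le _ _).trans ?_
      rw [norm_one, H54.ec_norm]; norm_num
    have a2 := ec_sub_one_low hJ hp i
    have a3 := ec_sub_one_low hJ hq i
    have a4 : ‖ec p (ev i) - 1‖ * ‖ec q (ev i) - 1‖ ≤ 4 * Real.pi ^ 2 * lam := by
      nlinarith [sq_nonneg (‖ec p (ev i) - 1‖ - ‖ec q (ev i) - 1‖)]
    calc _ ≤ 2 * (4 * Real.pi ^ 2 * lam) :=
          mul_le_mul a1 a4 (by positivity) (by norm_num)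
      _ = _ := by ring
  unfold ts
  refine (norm_add_le _ _).trans ?_
  rw [norm_mul, Complex.norm_real, Complex.norm_real, Real.norm_eq_abs, Real.norm_eq_abs,
    abs_of_nonneg hw]
  have h2 : ‖∑ i : Fin d, (1 + ec (p - q) (ev i)) *
      ((starRingEnd ℂ) (ec p (ev i) - 1) * (ec q (ev i) - 1))‖ ≤ d * (8 * Real.pi ^ 2 * lam) := by
    refine (norm_sum_le _ _).trans ?_
    refine (Finset.sum_le_sum fun i _ => h1 i).trans ?_
    rw [Finset.sum_const, Finset.card_univ, Fintype.card_fin, nsmul_eq_mul]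
  have h3 : w * ‖∑ i : Fin d, (1 + ec (p - q) (ev i)) *
      ((starRingEnd ℂ) (ec p (ev i) - 1) * (ec q (ev i) - 1))‖ ≤ 2 * (d * (8 * Real.pi ^ 2 * lam)) :=
    mul_le_mul hw2 h2 (norm_nonneg _) (by norm_num)
  linarith

theorem ds_neg (p : Tor d M) : ds (-p) = ds p := by
  have h1 := H54.ds_eq p
  have h2 := H54.ds_eq (-p)
  have h3 : (ds (-p) : ℂ) = (ds p : ℂ) := by
    rw [h1, h2]
    apply Finset.sum_congr rfl
    intro i _
    rw [H54.ec_neg_left, Complex.conj_conj]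
    ring
  exact_mod_cast h3

theorem ts_conj (w c : ℝ) (p q : Tor d M) : (starRingEnd ℂ) (ts w c q p) = ts w c p q := by
  unfold ts
  rw [map_add, map_mul, Complex.conj_ofReal, Complex.conj_ofReal, map_sum]
  congr 2
  apply Finset.sum_congr rfl
  intro i _
  simp only [map_mul, map_add, map_sub, map_one, Complex.conj_conj, ec_sub_left]
  ring

/-- the index set -/
abbrev Lo (d M J : ℕ) [NeZero M] : Type := {p : Tor d M // p ∈ low d M J}

/-- the matrices -/
def Xm (J : ℕ) (w c h l η : ℝ) (y : Tor d M) : Matrix (Lo d M J) (Lo d M J) ℂ := fun p q =>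
  (starRingEnd ℂ) (ec (p.1 - q.1) y) * (ts w c p.1 q.1 / ((ds (p.1 - q.1) + h : ℝ) : ℂ)) /
    (((M : ℝ) ^ d * (Real.sqrt (mt l η p.1) * Real.sqrt (mt l η q.1)) : ℝ) : ℂ)

theorem Xm_herm (J : ℕ) (w c h l η : ℝ) (y : Tor d M) :
    (Xm (d := d) (M := M) J w c h l η y).IsHermitian := by
  ext p q
  rw [Matrix.conjTranspose_apply, RCLike.star_def]
  unfold Xm
  rw [map_div₀, map_mul, map_div₀, Complex.conj_ofReal, Complex.conj_ofReal, Complex.conj_conj,
    ts_conj]
  have h1 : ec (q.1 - p.1) y = (starRingEnd ℂ) (ec (p.1 - q.1) y) := by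
    rw [← H54.ec_neg_left, neg_sub]
  have h2 : ds (q.1 - p.1) = ds (p.1 - q.1) := by rw [← ds_neg, neg_sub]
  rw [h1, h2, mul_comm (Real.sqrt (mt l η q.1))]

theorem pars (J : ℕ) (c : Lo d M J → ℂ) :
    ∑ y : Tor d M, ‖∑ q : Lo d M J, ec q.1 y * c q‖ ^ 2 = (M : ℝ) ^ d * ∑ q, ‖c q‖ ^ 2 := by
  classical
  have hM : (M : ℝ) ^ d ≠ 0 := pow_ne_zero _ (by exact_mod_cast NeZero.ne M)
  obtain ⟨f, hf⟩ := H54.surj (fun q : Tor d M => if h : q ∈ low d M J then c ⟨q, h⟩ else 0)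
  have h1 : ∀ y, ∑ q : Lo d M J, ec q.1 y * c q = (M : ℂ) ^ d * f y := by
    intro y
    rw [H54.inversion f y, mul_div_cancel₀ _ H54.Mne]
    have h2 : ∀ q : Tor d M, q ∉ low d M J → ec q y * ft f q = 0 := by
      intro q hq
      rw [hf, dif_neg hq, mul_zero]
    rw [← Finset.sum_subset (Finset.subset_univ (low d M J)) fun q _ hq => h2 q hq,
      ← Finset.sum_coe_sort (low d M J)]
    apply Finset.sum_congr rfl
    intro q _
    rw [hf, dif_pos q.2]
  have h3 : ∀ y, ‖∑ q : Lo d M J, ec q.1 y * c q‖ ^ 2 = ((M : ℝ) ^ d) ^ 2 * ‖f y‖ ^ 2 := by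
    intro y
    rw [h1, norm_mul, mul_pow, norm_pow, Complex.norm_natCast]
  rw [Finset.sum_congr rfl fun y _ => h3 y, ← Finset.mul_sum, H54.parseval1]
  have h4 : pm (fun p => ‖ft f p‖ ^ 2) = (∑ q : Lo d M J, ‖c q‖ ^ 2) / (M : ℝ) ^ d := by
    unfold pm
    congr 1
    rw [← Finset.sum_subset (Finset.subset_univ (low d M J)) fun q _ hq => by
      rw [hf, dif_neg hq]; simp, ← Finset.sum_coe_sort (low d M J)]
    apply Finset.sum_congr rfl
    intro q _
    rw [hf, dif_pos q.2]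
  rw [h4]
  field_simp

theorem Xm_sum {J : ℕ} {w c h l η lam B : ℝ} (hlam : 0 ≤ lam) (hw : 0 ≤ w) (hw2 : w ≤ 2)
    (hc : |c| ≤ 5 * lam) (hJ : (J : ℝ) ^ 2 ≤ lam * (M : ℝ) ^ 2) (hh : 0 < h)
    (hhl : lam ≤ 1200 * h) (hη : 0 < η)
    (hB : pm (fun p => if p ∈ low d M J then (mt l η p)⁻¹ else 0) ≤ B) (u : Lo d M J → ℂ) :
    ∑ y : Tor d M, nsq (Matrix.mulVec (Xm J w c h l η y) u) ≤
      ((1200 * (16 * Real.pi ^ 2 * d + 5)) ^ 2 * B / η) * nsq u := by
  set C1 := 1200 * (16 * Real.pi ^ 2 * (d : ℝ) + 5) with hC1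
  have hC0 : 0 ≤ C1 := by positivity
  have hM : (0 : ℝ) < (M : ℝ) ^ d :=
    pow_pos (by exact_mod_cast Nat.pos_of_ne_zero (NeZero.ne M)) _
  have hm : ∀ p : Tor d M, 0 < mt l η p := fun p => lt_of_lt_of_le hη (mt_ge' p)
  -- the symbol
  have hT : ∀ p q : Lo d M J, ‖ts w c p.1 q.1 / ((ds (p.1 - q.1) + h : ℝ) : ℂ)‖ ≤ C1 := by
    intro p q
    have h1 := ts_low hlam hw hw2 hc hJ p.2 q.2
    have h2 := H54.ds_nonneg (p.1 - q.1)
    rw [norm_div, Complex.norm_real, Real.norm_eq_abs, abs_of_pos (by linarith),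
      div_le_iff₀ (by linarith)]
    calc ‖ts w c p.1 q.1‖ ≤ (16 * Real.pi ^ 2 * d + 5) * lam := h1
      _ ≤ (16 * Real.pi ^ 2 * d + 5) * (1200 * h) :=
          mul_le_mul_of_nonneg_left hhl (by positivity)
      _ = C1 * h := by rw [hC1]; ring
      _ ≤ _ := mul_le_mul_of_nonneg_left (by linarith) hC0
  have h1 : ∀ (y : Tor d M) (p : Lo d M J), ‖Matrix.mulVec (Xm J w c h l η y) u p‖ ^ 2 =
      (((M : ℝ) ^ d) ^ 2 * mt l η p.1)⁻¹ * ‖∑ q : Lo d M J, ec q.1 y *
        (ts w c p.1 q.1 / ((ds (p.1 - q.1) + h : ℝ) : ℂ) * u q /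
          ((Real.sqrt (mt l η q.1) : ℝ) : ℂ))‖ ^ 2 := by
    intro y p
    have e1 : Matrix.mulVec (Xm J w c h l η y) u p =
        ((starRingEnd ℂ) (ec p.1 y) / (((M : ℝ) ^ d * Real.sqrt (mt l η p.1) : ℝ) : ℂ)) *
        ∑ q : Lo d M J, ec q.1 y *
        (ts w c p.1 q.1 / ((ds (p.1 - q.1) + h : ℝ) : ℂ) * u q /
          ((Real.sqrt (mt l η q.1) : ℝ) : ℂ)) := by
      unfold Matrix.mulVec dotProduct
      rw [Finset.mul_sum]
      apply Finset.sum_congr rfl
      intro q _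
      unfold Xm
      dsimp only
      rw [ec_sub_left, map_mul, Complex.conj_conj]
      have e2 : ((Real.sqrt (mt l η q.1) : ℝ) : ℂ) ≠ 0 := by
        exact_mod_cast (Real.sqrt_pos.2 (hm q.1)).ne'
      have e3 : ((Real.sqrt (mt l η p.1) : ℝ) : ℂ) ≠ 0 := by
        exact_mod_cast (Real.sqrt_pos.2 (hm p.1)).ne'
      have e4 : (M : ℂ) ^ d ≠ 0 := H54.Mne
      push_cast
      field_simp
    rw [e1, norm_mul, mul_pow]
    congr 1
    rw [norm_div, RCLike.norm_conj, H54.ec_norm, Complex.norm_real, Real.norm_eq_abs,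
      abs_of_nonneg (by positivity), one_div, inv_pow, mul_pow, Real.sq_sqrt (hm p.1).le]
  have h2 : ∑ y : Tor d M, nsq (Matrix.mulVec (Xm J w c h l η y) u) =
      ∑ p : Lo d M J, (((M : ℝ) ^ d) ^ 2 * mt l η p.1)⁻¹ * ((M : ℝ) ^ d * ∑ q : Lo d M J,
        ‖ts w c p.1 q.1 / ((ds (p.1 - q.1) + h : ℝ) : ℂ) * u q /
          ((Real.sqrt (mt l η q.1) : ℝ) : ℂ)‖ ^ 2) := by
    unfold nsq
    rw [Finset.sum_comm]
    apply Finset.sum_congr rfl
    intro p _
    rw [Finset.sum_congr rfl fun y _ => h1 y p, ← Finset.mul_sum, pars]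
  have h3 : ∀ p : Lo d M J, ∑ q : Lo d M J,
        ‖ts w c p.1 q.1 / ((ds (p.1 - q.1) + h : ℝ) : ℂ) * u q /
          ((Real.sqrt (mt l η q.1) : ℝ) : ℂ)‖ ^ 2 ≤ C1 ^ 2 / η * nsq u := by
    intro p
    unfold nsq
    rw [Finset.mul_sum]
    apply Finset.sum_le_sum
    intro q _
    rw [norm_div, norm_mul, Complex.norm_real, Real.norm_eq_abs,
      abs_of_nonneg (Real.sqrt_nonneg _), div_pow, mul_pow, Real.sq_sqrt (hm q.1).le]
    have a1 : ‖ts w c p.1 q.1 / ((ds (p.1 - q.1) + h : ℝ) : ℂ)‖ ^ 2 ≤ C1 ^ 2 :=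
      pow_le_pow_left₀ (norm_nonneg _) (hT p q) 2
    calc _ ≤ (C1 ^ 2 * ‖u q‖ ^ 2) / η :=
          div_le_div₀ (by positivity) (mul_le_mul_of_nonneg_right a1 (by positivity)) hη
            (mt_ge' q.1)
      _ = _ := by ring
  have hn : 0 ≤ nsq u := Finset.sum_nonneg fun _ _ => by positivity
  rw [h2]
  calc _ ≤ ∑ p : Lo d M J, (((M : ℝ) ^ d) ^ 2 * mt l η p.1)⁻¹ * ((M : ℝ) ^ d *
        (C1 ^ 2 / η * nsq u)) := by
        apply Finset.sum_le_sum
        intro p _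
        have := hm p.1
        apply mul_le_mul_of_nonneg_left _ (by positivity)
        exact mul_le_mul_of_nonneg_left (h3 p) hM.le
    _ = (C1 ^ 2 / η * nsq u) * pm (fun p => if p ∈ low d M J then (mt l η p)⁻¹ else 0) := by
        unfold pm
        rw [← Finset.sum_filter, Finset.filter_mem_eq_inter, Finset.univ_inter,
          ← Finset.sum_coe_sort (low d M J), Finset.sum_div, Finset.mul_sum]
        apply Finset.sum_congr rfl
        intro p _
        have := (hm p.1).ne'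
        field_simp
    _ ≤ (C1 ^ 2 / η * nsq u) * B := mul_le_mul_of_nonneg_left hB (by positivity)
    _ = _ := by ring

theorem sum_low {J : ℕ} {F : Tor d M → ℂ} (hF : ∀ p, p ∉ low d M J → F p = 0) :
    ∑ p, F p = ∑ p : Lo d M J, F p.1 := by
  rw [← Finset.sum_subset (Finset.subset_univ (low d M J)) fun q _ hq => hF q hq,
    ← Finset.sum_coe_sort (low d M J)]

theorem card_low (J : ℕ) : (Fintype.card (Lo d M J) : ℝ) ≤ (2 * (J : ℝ) + 1) ^ d := by
  have h1 : (low d M J).card ≤ (Fintype.piFinset fun _ : Fin d => Finset.Icc (-(J : ℤ)) J).card := by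
    apply Finset.card_le_card_of_injOn (fun p i => (p i).valMinAbs)
    · intro p hp
      have hp1 : p ∈ low d M J := hp
      unfold low at hp1
      simp only [Finset.mem_filter, Finset.mem_univ, true_and] at hp1
      simp only [Finset.mem_coe, Fintype.mem_piFinset, Finset.mem_Icc]
      intro i
      have := hp1 i
      omega
    · intro p _ q _ hpq
      ext i
      have := congrFun hpq i
      simp only at this
      rw [← ZMod.coe_valMinAbs (p i), ← ZMod.coe_valMinAbs (q i), this]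
  have h2 : (Fintype.piFinset fun _ : Fin d => Finset.Icc (-(J : ℤ)) J).card = (2 * J + 1) ^ d := by
    rw [Fintype.card_piFinset]
    simp only [Int.card_Icc, Finset.prod_const, Finset.card_univ, Fintype.card_fin]
    congr 1
    omega
  rw [Fintype.card_coe]
  have h3 : (low d M J).card ≤ (2 * J + 1) ^ d := h1.trans h2.le
  exact_mod_cast h3

theorem nsq_dot {n : Type} [Fintype n] (b a : n → ℂ) :
    ‖∑ p, (starRingEnd ℂ) (b p) * a p‖ ^ 2 ≤ nsq b * nsq a := by
  have h1 : ‖∑ p, (starRingEnd ℂ) (b p) * a p‖ ≤ ∑ p, ‖b p‖ * ‖a p‖ := by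
    refine (norm_sum_le _ _).trans (Finset.sum_le_sum fun p _ => ?_)
    rw [norm_mul, RCLike.norm_conj]
  have h2 : (∑ p, ‖b p‖ * ‖a p‖) ^ 2 ≤ (∑ p, ‖b p‖ ^ 2) * ∑ p, ‖a p‖ ^ 2 :=
    Finset.sum_mul_sq_le_sq_mul_sq _ _ _
  exact (pow_le_pow_left₀ (norm_nonneg _) h1 2).trans h2

theorem khl (hNck : NckStmt) : KhlStmt := by
  classical
  intro d hd
  set C1 := 1200 * (16 * Real.pi ^ 2 * (d : ℝ) + 5) with hC1
  have hC11 : 6000 ≤ C1 := by
    have : 0 ≤ 16 * Real.pi ^ 2 * (d : ℝ) := by positivity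
    rw [hC1]; linarith
  refine ⟨2 * C1 ^ 2, by nlinarith, ?_⟩
  intro M J _ v w h lam l η τ r B k hw1 hw2 hh hhl hlh hJ hη hτ hr hk hB
  have hlam : 0 < lam := lt_of_lt_of_le hh hhl
  have hc : |h - 2 * lam * w| ≤ 5 * lam := by
    rw [abs_le]
    constructor
    · nlinarith
    · nlinarith [mul_pos hlam (by linarith : (0 : ℝ) < w)]
  have hm : ∀ p : Tor d M, 0 < mt l η p := fun p => lt_of_lt_of_le hη (mt_ge' p)
  have hB0 : 0 ≤ B := by
    refine le_trans (pm_nonneg fun p => ?_) hB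
    split_ifs
    · exact inv_nonneg.2 (hm p).le
    · exact le_rfl
  have hΘ : 0 ≤ C1 ^ 2 * B / η := by positivity
  have hN := hNck (Tor d M) (Lo d M J) (Xm J w (h - 2 * lam * w) h l η) v (C1 ^ 2 * B / η) τ r k
    (Xm_herm J w _ h l η) hΘ
    (fun u => Xm_sum hlam.le (by linarith) hw2 hc hJ hh hlh hη hB u) hτ hr hk
  have hsub : {V : Tor d M → ℝ | ¬ KE J (gv h V) w (h - 2 * lam * w) l η τ} ⊆
      {V | ¬ ∀ u : Lo d M J → ℂ, nsq (Matrix.mulVec (∑ y, (V y : ℂ) •
        Xm J w (h - 2 * lam * w) h l η y) u) ≤ τ ^ 2 * nsq u} := by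
    intro V hV hall
    apply hV
    intro f g hf hg
    set c := h - 2 * lam * w with hcdef
    have hMp : (0 : ℝ) < (M : ℝ) ^ d :=
      pow_pos (by exact_mod_cast Nat.pos_of_ne_zero (NeZero.ne M)) _
    have hMc : (M : ℂ) ^ d ≠ 0 := H54.Mne
    set a : Lo d M J → ℂ := fun q => ((Real.sqrt (mt l η q.1) : ℝ) : ℂ) * ft f q.1 with ha
    set b : Lo d M J → ℂ := fun q => ((Real.sqrt (mt l η q.1) : ℝ) : ℂ) * ft g q.1 with hb
    have key : ∑ x, (starRingEnd ℂ) (g x) * tpo (gv h V) w c f x =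
        (∑ p, (starRingEnd ℂ) (b p) * Matrix.mulVec (∑ y, (V y : ℂ) • Xm J w c h l η y) a p) /
          (M : ℂ) ^ d := by
      rw [form_ft]
      have s1 : ∀ p : Tor d M, p ∉ low d M J → ∑ q, (starRingEnd ℂ) (ft g p) * (ft f q *
          (ft (fun x => (gv h V x : ℂ)) (p - q) * ts w c p q)) = 0 := by
        intro p hp
        apply Finset.sum_eq_zero
        intro q _
        rw [hg p hp]; simp
      rw [sum_low s1, Finset.sum_div, Finset.sum_div]
      apply Finset.sum_congr rfl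
      intro p _
      have s2 : ∀ q : Tor d M, q ∉ low d M J → (starRingEnd ℂ) (ft g p.1) * (ft f q *
          (ft (fun x => (gv h V x : ℂ)) (p.1 - q) * ts w c p.1 q)) = 0 := by
        intro q hq
        rw [hf q hq]; simp
      rw [sum_low s2]
      unfold Matrix.mulVec dotProduct
      rw [Finset.mul_sum, Finset.sum_div, Finset.sum_div]
      apply Finset.sum_congr rfl
      intro q _
      rw [H54.ft_gv h V _ hh]
      have e2 : ((Real.sqrt (mt l η q.1) : ℝ) : ℂ) ≠ 0 := by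
        exact_mod_cast (Real.sqrt_pos.2 (hm q.1)).ne'
      have e3 : ((Real.sqrt (mt l η p.1) : ℝ) : ℂ) ≠ 0 := by
        exact_mod_cast (Real.sqrt_pos.2 (hm p.1)).ne'
      have e4 : ((ds (p.1 - q.1) + h : ℝ) : ℂ) ≠ 0 := by
        have := H54.ds_nonneg (p.1 - q.1)
        exact_mod_cast (by linarith : (0 : ℝ) < ds (p.1 - q.1) + h).ne'
      have e5 : (∑ y, (V y : ℂ) • Xm J w c h l η y) p q =
          ft (fun x => (V x : ℂ)) (p.1 - q.1) *
            ((ts w c p.1 q.1 / ((ds (p.1 - q.1) + h : ℝ) : ℂ)) /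
            (((M : ℝ) ^ d * (Real.sqrt (mt l η p.1) * Real.sqrt (mt l η q.1)) : ℝ) : ℂ)) := by
        rw [Matrix.sum_apply]
        unfold ft
        rw [Finset.sum_mul]
        apply Finset.sum_congr rfl
        intro y _
        rw [Matrix.smul_apply, smul_eq_mul]
        unfold Xm
        dsimp only
        ring
      beta_reduce
      rw [e5]
      simp only [ha, hb, map_mul, Complex.conj_ofReal]
      push_cast
      push_cast at e4
      field_simp
    have na : nsq a = (M : ℝ) ^ d * pm (fun p => mt l η p * ‖ft f p‖ ^ 2) := by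
      unfold nsq pm
      rw [mul_div_cancel₀ _ hMp.ne', ← Finset.sum_subset (Finset.subset_univ (low d M J))
        fun q _ hq => by rw [hf q hq]; simp, ← Finset.sum_coe_sort (low d M J)]
      apply Finset.sum_congr rfl
      intro q _
      simp only [ha]
      rw [norm_mul, mul_pow, Complex.norm_real, Real.norm_eq_abs, sq_abs,
        Real.sq_sqrt (hm q.1).le]
    have nb : nsq b = (M : ℝ) ^ d * pm (fun p => mt l η p * ‖ft g p‖ ^ 2) := by
      unfold nsq pm
      rw [mul_div_cancel₀ _ hMp.ne', ← Finset.sum_subset (Finset.subset_univ (low d M J))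
        fun q _ hq => by rw [hg q hq]; simp, ← Finset.sum_coe_sort (low d M J)]
      apply Finset.sum_congr rfl
      intro q _
      simp only [hb]
      rw [norm_mul, mul_pow, Complex.norm_real, Real.norm_eq_abs, sq_abs,
        Real.sq_sqrt (hm q.1).le]
    rw [key, norm_div, div_pow, norm_pow, Complex.norm_natCast]
    have h1 := nsq_dot b (Matrix.mulVec (∑ y, (V y : ℂ) • Xm J w c h l η y) a)
    have h2 := hall a
    have hnb : 0 ≤ nsq b := Finset.sum_nonneg fun _ _ => by positivity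
    rw [div_le_iff₀ (by positivity)]
    calc _ ≤ nsq b * (τ ^ 2 * nsq a) := h1.trans (mul_le_mul_of_nonneg_left h2 hnb)
      _ = _ := by rw [na, nb]; ring
  refine (measure_mono hsub).trans (hN.trans (ENNReal.ofReal_le_ofReal ?_))
  have hcard : (Fintype.card (Tor d M) : ℝ) = (M : ℝ) ^ d := by
    rw [Fintype.card_fun, ZMod.card, Fintype.card_fin]
    push_cast
    rfl
  rw [hcard]
  have e1 : 2 * (k : ℝ) * r ^ 2 * v * (C1 ^ 2 * B / η) / τ ^ 2 =
      2 * C1 ^ 2 * k * r ^ 2 * v * B / (η * τ ^ 2) := by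
    field_simp
  rw [e1]
  have h2 : 0 ≤ (2 * C1 ^ 2 * k * r ^ 2 * v * B / (η * τ ^ 2)) ^ k := by positivity
  have h3 := card_low (d := d) (M := M) J
  have h4 := mul_le_mul_of_nonneg_right h3 h2
  linarith

end Pool.Agent.LE.IR.H49
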